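import Pool.Agent.W488.IX.Stm

/-! Project IX: the exceptional set is a null set. -/

set_option autoImplicit false

namespace Pool.Agent.W880.IX.Ae

open MeasureTheory Set Filter Topology
open Pool.Agent.W488.IW Pool.Agent.W488.IX

theorem main : S_AE := by
  change ∀ᵐ F ∂((volume : Measure ℂ).prod (volume : Measure ℂ)), ‖F.1‖ ≠ ‖F.2‖
  have hm : MeasurableSet {F : ℂ × ℂ | ‖F.1‖ ≠ ‖F.2‖} := by
    have h1 : MeasurableSet {F : ℂ × ℂ | ‖F.1‖ = ‖F.2‖} :=
      measurableSet_eq_fun (measurable_fst.norm) (measurable_snd.norm)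
    exact h1.compl
  rw [Measure.ae_prod_iff_ae_ae hm]
  refine Eventually.of_forall fun a => ?_
  rw [ae_iff]
  have h2 : {b : ℂ | ¬‖a‖ ≠ ‖b‖} = Metric.sphere (0 : ℂ) ‖a‖ := by
    ext b
    rw [Set.mem_ofPred_eq, mem_sphere_zero_iff_norm, not_not]
    exact eq_comm
  change volume {b : ℂ | ¬‖a‖ ≠ ‖b‖} = 0
  rw [h2]
  exact Measure.addHaar_sphere volume 0 ‖a‖

end Pool.Agent.W880.IX.Ae
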