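import Pool.Agent.W488.IX.Stm

/-! Project IX: derivatives of the functions, region `x < y`. -/

set_option autoImplicit false

namespace Pool.Agent.W880.IX.J1

open MeasureTheory Set Filter Topology
open Pool.Agent.W488.IW Pool.Agent.W488.IX

/-! ### one variable -/

section one

variable {α C : ℝ} {κ : ℝ → ℝ}

theorem int_div0 (h : Kap α C κ) (t : ℝ) : IntervalIntegrable (fun s => κ s / s) volume 0 t := by
  have h1 : IntervalIntegrable (fun s : ℝ => C * s ^ (α - 1)) volume 0 t :=
    (intervalIntegral.intervalIntegrable_rpow' (by linarith [h.a0])).const_mul C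
  have hm : AEStronglyMeasurable (fun s => κ s / s) (volume.restrict (Set.uIoc 0 t)) :=
    (h.cont.measurable.div measurable_id).aestronglyMeasurable
  rcases le_or_gt t 0 with ht | ht
  · have h2 : IntervalIntegrable (fun _ : ℝ => (0 : ℝ)) volume 0 t :=
      intervalIntegrable_const
    apply h2.mono_fun' hm
    rw [Filter.EventuallyLE, ae_restrict_iff' measurableSet_uIoc]
    refine Eventually.of_forall fun s hs => ?_
    rw [Set.uIoc_of_ge ht] at hs
    rw [h.neg s hs.2, zero_div, norm_zero]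
  · apply h1.mono_fun' hm
    rw [Filter.EventuallyLE, ae_restrict_iff' measurableSet_uIoc]
    refine Eventually.of_forall fun s hs => ?_
    rw [Set.uIoc_of_le ht.le] at hs
    have hs0 := hs.1
    rw [Real.norm_of_nonneg (div_nonneg (h.nn s) hs0.le), Real.rpow_sub_one hs0.ne',
      ← mul_div_assoc]
    exact div_le_div_of_nonneg_right (h.up s hs0.le) hs0.le

theorem int_div (h : Kap α C κ) (a b : ℝ) : IntervalIntegrable (fun s => κ s / s) volume a b :=
  (int_div0 h a).symm.trans (int_div0 h b)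

theorem hh1_cont (h : Kap α C κ) : Continuous (hh1 κ) :=
  intervalIntegral.continuous_primitive (int_div h) 0

theorem hh1_deriv (h : Kap α C κ) {t : ℝ} (ht : t ≠ 0) : HasDerivAt (hh1 κ) (κ t / t) t := by
  apply intervalIntegral.integral_hasDerivAt_right (int_div h 0 t)
  · exact (h.cont.measurable.div measurable_id).stronglyMeasurable.stronglyMeasurableAtFilter
  · exact h.cont.continuousAt.div continuousAt_id ht

theorem hh_deriv (h : Kap α C κ) (t : ℝ) : HasDerivAt (hh κ) (hh1 κ t) t :=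
  ((hh1_cont h).integral_hasStrictDerivAt 0 t).hasDerivAt

theorem om1_deriv (h : Kap α C κ) (t : ℝ) : HasDerivAt (om1 κ) (κ t) t :=
  (h.cont.integral_hasStrictDerivAt 0 t).hasDerivAt

theorem om1_cont (h : Kap α C κ) : Continuous (om1 κ) :=
  continuous_iff_continuousAt.2 fun t => (om1_deriv h t).continuousAt

theorem om_deriv (h : Kap α C κ) (t : ℝ) : HasDerivAt (om κ) (om1 κ t) t :=
  ((om1_cont h).integral_hasStrictDerivAt 0 t).hasDerivAt

theorem hh_cont (h : Kap α C κ) : Continuous (hh κ) :=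
  continuous_iff_continuousAt.2 fun t => (hh_deriv h t).continuousAt

theorem om_cont (h : Kap α C κ) : Continuous (om κ) :=
  continuous_iff_continuousAt.2 fun t => (om_deriv h t).continuousAt

/-- the identity `ω' = t h' - h` -/
theorem om1_eq (h : Kap α C κ) {t : ℝ} (ht : 0 ≤ t) : om1 κ t = t * hh1 κ t - hh κ t := by
  have h1 : ∫ s in (0 : ℝ)..t, κ s = (t * hh1 κ t - hh κ t) - (0 * hh1 κ 0 - hh κ 0) := by
    apply intervalIntegral.integral_eq_sub_of_hasDeriv_right_of_le
      (f := fun s => s * hh1 κ s - hh κ s) ht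
    · exact ((continuous_id.mul (hh1_cont h)).sub (hh_cont h)).continuousOn
    · intro s hs
      have hs0 : s ≠ 0 := hs.1.ne'
      have h2 := ((hasDerivAt_id s).mul (hh1_deriv h hs0)).sub (hh_deriv h s)
      have h3 : 1 * hh1 κ s + id s * (κ s / s) - hh1 κ s = κ s := by
        rw [id_eq]
        field_simp
        ring
      rw [h3] at h2
      exact h2.hasDerivWithinAt
    · exact h.cont.intervalIntegrable 0 t
  have h0 : hh κ 0 = 0 := intervalIntegral.integral_same
  change ∫ s in (0 : ℝ)..t, κ s = _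
  rw [h1, h0]
  ring

end one

/-! ### two variables -/

section two

variable {f g : ℝ × ℝ → ℝ} {z : ℝ × ℝ} {a b c d : ℝ}

theorem lin_eq {a b a' b' : ℝ} (h1 : a = a') (h2 : b = b') : lin a b = lin a' b' := by
  rw [h1, h2]

theorem l_fst : HasFDerivAt (fun z : ℝ × ℝ => z.1) (lin 1 0) z := by
  have h : lin 1 0 = ContinuousLinearMap.fst ℝ ℝ ℝ := by
    ext <;> simp [lin]
  rw [h]
  exact hasFDerivAt_fst

theorem l_snd : HasFDerivAt (fun z : ℝ × ℝ => z.2) (lin 0 1) z := by
  have h : lin 0 1 = ContinuousLinearMap.snd ℝ ℝ ℝ := by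
    ext <;> simp [lin]
  rw [h]
  exact hasFDerivAt_snd

theorem l_const (r : ℝ) : HasFDerivAt (fun _ : ℝ × ℝ => r) (lin 0 0) z := by
  have h : lin 0 0 = 0 := by
    ext <;> simp [lin]
  rw [h]
  exact hasFDerivAt_const _ _

theorem l_add (hf : HasFDerivAt f (lin a b) z) (hg : HasFDerivAt g (lin c d) z) :
    HasFDerivAt (fun z => f z + g z) (lin (a + c) (b + d)) z := by
  have h : lin (a + c) (b + d) = lin a b + lin c d := by
    ext <;> simp [lin]
  rw [h]
  exact hf.add hg

theorem l_sub (hf : HasFDerivAt f (lin a b) z) (hg : HasFDerivAt g (lin c d) z) :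
    HasFDerivAt (fun z => f z - g z) (lin (a - c) (b - d)) z := by
  have h : lin (a - c) (b - d) = lin a b - lin c d := by
    ext <;> simp [lin]
  rw [h]
  exact hf.sub hg

theorem l_neg (hf : HasFDerivAt f (lin a b) z) :
    HasFDerivAt (fun z => -f z) (lin (-a) (-b)) z := by
  have h : lin (-a) (-b) = -lin a b := by
    ext <;> simp [lin]
  rw [h]
  exact hf.neg

theorem l_mul (hf : HasFDerivAt f (lin a b) z) (hg : HasFDerivAt g (lin c d) z) :
    HasFDerivAt (fun z => f z * g z) (lin (f z * c + g z * a) (f z * d + g z * b)) z := by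
  have h : lin (f z * c + g z * a) (f z * d + g z * b) = f z • lin c d + g z • lin a b := by
    ext <;> simp [lin]
  rw [h]
  exact hf.mul hg

theorem l_comp {φ : ℝ → ℝ} {φ' : ℝ} (hφ : HasDerivAt φ φ' (f z))
    (hf : HasFDerivAt f (lin a b) z) :
    HasFDerivAt (fun z => φ (f z)) (lin (φ' * a) (φ' * b)) z := by
  have h : lin (φ' * a) (φ' * b) = φ' • lin a b := by
    ext <;> simp [lin]
  rw [h]
  exact hφ.comp_hasFDerivAt z hf

theorem l_congr {a' b' : ℝ} (hf : HasFDerivAt f (lin a b) z) (h1 : a = a') (h2 : b = b') :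
    HasFDerivAt f (lin a' b') z := by
  rw [← h1, ← h2]
  exact hf

end two

theorem main : S_J1 := by
  intro α C κ h x y hx hxy
  have hy : 0 < y := hx.trans hxy
  have hs : x + y ≠ 0 := (add_pos hx hy).ne'
  have hev : ∀ᶠ z : ℝ × ℝ in 𝓝 (x, y), z.1 < z.2 :=
    (isOpen_lt continuous_fst continuous_snd).mem_nhds hxy
  have hsum : HasFDerivAt (fun z : ℝ × ℝ => z.1 + z.2) (lin (1 + 0) (0 + 1)) (x, y) :=
    l_add l_fst l_snd
  refine ⟨?_, ?_, ?_, ?_, ?_, ?_, ?_, ?_⟩
  · rw [Fx, max_eq_right hxy.le]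
  · rw [Fy, min_eq_left hxy.le, add_comm y x, om1_eq h (add_pos hx hy).le]
    ring
  · have h1 : HasFDerivAt (fun z : ℝ × ℝ => z.1 * hh1 κ (z.1 + z.2)) _ (x, y) :=
      l_mul l_fst (l_comp (φ := hh1 κ) (hh1_deriv h hs) hsum)
    refine (l_congr h1 ?_ ?_).congr_of_eventuallyEq ?_
    · change x * (κ (x + y) / (x + y) * (1 + 0)) + hh1 κ (x + y) * 1 = _
      ring
    · change x * (κ (x + y) / (x + y) * (0 + 1)) + hh1 κ (x + y) * 0 = _
      ring
    · filter_upwards [hev] with z hz
      rw [Fx, max_eq_right hz.le]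
  · have h1 : HasFDerivAt (fun z : ℝ × ℝ => z.1 * hh1 κ (z.1 + z.2) - hh κ (z.1 + z.2)) _ (x, y) :=
      l_sub (l_mul l_fst (l_comp (φ := hh1 κ) (hh1_deriv h hs) hsum))
        (l_comp (φ := hh κ) (hh_deriv h (x + y)) hsum)
    refine (l_congr h1 ?_ ?_).congr_of_eventuallyEq ?_
    · change x * (κ (x + y) / (x + y) * (1 + 0)) + hh1 κ (x + y) * 1 - hh1 κ (x + y) * (1 + 0) = _
      ring
    · change x * (κ (x + y) / (x + y) * (0 + 1)) + hh1 κ (x + y) * 0 - hh1 κ (x + y) * (0 + 1) = _
      ring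
    · filter_upwards [hev] with z hz
      rw [Fy, min_eq_left hz.le, add_comm z.2 z.1]
  · rw [E2, min_eq_left hxy.le, intervalIntegral.integral_same]
  · refine (l_const 0).congr_of_eventuallyEq ?_
    filter_upwards [hev] with z hz
    rw [E2, min_eq_left hz.le, intervalIntegral.integral_same]
  · rw [G2, min_eq_left hxy.le, max_eq_right hxy.le, add_comm y x]
    ring
  · have h1 : HasFDerivAt (fun z : ℝ × ℝ => -om κ (z.1 + z.2)) _ (x, y) :=
      l_neg (l_comp (φ := om κ) (om_deriv h (x + y)) hsum)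
    refine (l_congr h1 ?_ ?_).congr_of_eventuallyEq ?_
    · ring
    · ring
    · filter_upwards [hev] with z hz
      rw [G2, min_eq_left hz.le, max_eq_right hz.le, add_comm z.2 z.1]
      ring

end Pool.Agent.W880.IX.J1
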