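import Pool.Agent.W880.IX.J1

/-! Project IX: derivatives of the functions, region `y < x`. -/

set_option autoImplicit false

namespace Pool.Agent.W880.IX.J2

open MeasureTheory Set Filter Topology
open Pool.Agent.W488.IW Pool.Agent.W488.IX Pool.Agent.W880.IX.J1

variable {α C : ℝ} {κ : ℝ → ℝ}

theorem Ht_deriv (h : Kap α C κ) {t : ℝ} (ht : t ≠ 0) :
    HasDerivAt (Ht κ) (2 * om1 κ t / t ^ 2 - κ t / t) t := by
  have h1 : HasDerivAt (fun s => hh1 κ s - 2 * om1 κ s / s)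
      (κ t / t - (2 * κ t * t - 2 * om1 κ t * 1) / t ^ 2) t :=
    (hh1_deriv h ht).sub (((om1_deriv h t).const_mul 2).div (hasDerivAt_id t) ht)
  have h2 : κ t / t - (2 * κ t * t - 2 * om1 κ t * 1) / t ^ 2 =
      2 * om1 κ t / t ^ 2 - κ t / t := by
    field_simp
    ring
  rw [h2] at h1
  exact h1

theorem P_deriv (h : Kap α C κ) (t : ℝ) :
    HasDerivAt (fun t => ∫ s in (0 : ℝ)..t, s * κ (2 * s)) (t * κ (2 * t)) t := by
  have hc : Continuous fun s : ℝ => s * κ (2 * s) :=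
    continuous_id.mul (h.cont.comp (continuous_const.mul continuous_id))
  exact (hc.integral_hasStrictDerivAt 0 t).hasDerivAt

theorem E2_eq (h : Kap α C κ) (x y : ℝ) (hxy : y < x) :
    E2 κ x y = (∫ s in (0 : ℝ)..x, s * κ (2 * s)) - ∫ s in (0 : ℝ)..y, s * κ (2 * s) := by
  have hc : Continuous fun s : ℝ => s * κ (2 * s) :=
    continuous_id.mul (h.cont.comp (continuous_const.mul continuous_id))
  rw [E2, min_eq_right hxy.le]
  exact (intervalIntegral.integral_interval_sub_left (hc.intervalIntegrable _ _)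
    (hc.intervalIntegrable _ _)).symm

theorem main : S_J2 := by
  intro α C κ h x y hy hxy
  have hx : 0 < x := hy.trans hxy
  have h2x : 2 * x ≠ 0 := by positivity
  have h2y : 2 * y ≠ 0 := by positivity
  have hev : ∀ᶠ z : ℝ × ℝ in 𝓝 (x, y), z.2 < z.1 :=
    (isOpen_lt continuous_snd continuous_fst).mem_nhds hxy
  have d1 : HasFDerivAt (fun z : ℝ × ℝ => 2 * z.1) (lin (2 * 1 + x * 0) (2 * 0 + x * 0)) (x, y) :=
    l_mul (z := (x, y)) (l_const 2) l_fst
  have d2 : HasFDerivAt (fun z : ℝ × ℝ => 2 * z.2) (lin (2 * 0 + y * 0) (2 * 1 + y * 0)) (x, y) :=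
    l_mul (z := (x, y)) (l_const 2) l_snd
  have hFy : ∀ a b : ℝ, b < a → Fy κ a b = b * hh1 κ (2 * b) - hh κ (2 * b) := by
    intro a b hab
    rw [Fy, min_eq_right hab.le, ← two_mul]
  have hFx : ∀ a b : ℝ, b < a → Fx κ a b = a * hh1 κ (2 * a) := by
    intro a b hab
    rw [Fx, max_eq_left hab.le, ← two_mul]
  refine ⟨hFx x y hxy, ?_, ?_, ?_, ?_, ?_⟩
  · rw [hFy x y hxy, om1_eq h (by positivity : (0 : ℝ) ≤ 2 * y)]
    ring
  · have h1 : HasFDerivAt (fun z : ℝ × ℝ => z.1 * hh1 κ (2 * z.1)) _ (x, y) :=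
      l_mul l_fst (l_comp (φ := hh1 κ) (hh1_deriv h h2x) d1)
    refine (l_congr h1 ?_ ?_).congr_of_eventuallyEq ?_
    · change x * (κ (2 * x) / (2 * x) * (2 * 1 + x * 0)) + hh1 κ (2 * x) * 1 = _
      field_simp
      ring
    · change x * (κ (2 * x) / (2 * x) * (2 * 0 + x * 0)) + hh1 κ (2 * x) * 0 = _
      ring
    · filter_upwards [hev] with z hz
      exact hFx z.1 z.2 hz
  · have h1 : HasFDerivAt (fun z : ℝ × ℝ => z.2 * hh1 κ (2 * z.2) - hh κ (2 * z.2)) _ (x, y) :=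
      l_sub (l_mul l_snd (l_comp (φ := hh1 κ) (hh1_deriv h h2y) d2))
        (l_comp (φ := hh κ) (hh_deriv h (2 * y)) d2)
    refine (l_congr h1 ?_ ?_).congr_of_eventuallyEq ?_
    · change y * (κ (2 * y) / (2 * y) * (2 * 0 + y * 0)) + hh1 κ (2 * y) * 0 -
        hh1 κ (2 * y) * (2 * 0 + y * 0) = _
      ring
    · change y * (κ (2 * y) / (2 * y) * (2 * 1 + y * 0)) + hh1 κ (2 * y) * 1 -
        hh1 κ (2 * y) * (2 * 1 + y * 0) = _
      field_simp
      ring
    · filter_upwards [hev] with z hz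
      exact hFy z.1 z.2 hz
  · have h1 : HasFDerivAt (fun z : ℝ × ℝ => (∫ s in (0 : ℝ)..z.1, s * κ (2 * s)) -
        ∫ s in (0 : ℝ)..z.2, s * κ (2 * s)) _ (x, y) :=
      l_sub (l_comp (φ := fun t => ∫ s in (0 : ℝ)..t, s * κ (2 * s)) (P_deriv h x) l_fst)
        (l_comp (φ := fun t => ∫ s in (0 : ℝ)..t, s * κ (2 * s)) (P_deriv h y) l_snd)
    refine (l_congr h1 ?_ ?_).congr_of_eventuallyEq ?_
    · ring
    · ring
    · filter_upwards [hev] with z hz
      exact E2_eq h z.1 z.2 hz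
  · have h1 : HasFDerivAt (fun z : ℝ × ℝ => -om κ (2 * z.2) -
        z.2 * z.2 * (Ht κ (2 * z.1) - Ht κ (2 * z.2))) _ (x, y) :=
      l_sub (l_neg (l_comp (φ := om κ) (om_deriv h (2 * y)) d2))
        (l_mul (l_mul l_snd l_snd) (l_sub (l_comp (φ := Ht κ) (Ht_deriv h h2x) d1)
          (l_comp (φ := Ht κ) (Ht_deriv h h2y) d2)))
    refine (l_congr h1 ?_ ?_).congr_of_eventuallyEq ?_
    · change -(om1 κ (2 * y) * (2 * 0 + y * 0)) - (y * y *
        ((2 * om1 κ (2 * x) / (2 * x) ^ 2 - κ (2 * x) / (2 * x)) * (2 * 1 + x * 0) -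
          (2 * om1 κ (2 * y) / (2 * y) ^ 2 - κ (2 * y) / (2 * y)) * (2 * 0 + y * 0)) +
        (Ht κ (2 * x) - Ht κ (2 * y)) * (y * 0 + y * 0)) = _
      field_simp
      ring
    · change -(om1 κ (2 * y) * (2 * 1 + y * 0)) - (y * y *
        ((2 * om1 κ (2 * x) / (2 * x) ^ 2 - κ (2 * x) / (2 * x)) * (2 * 0 + x * 0) -
          (2 * om1 κ (2 * y) / (2 * y) ^ 2 - κ (2 * y) / (2 * y)) * (2 * 1 + y * 0)) +
        (Ht κ (2 * x) - Ht κ (2 * y)) * (y * 1 + y * 1)) = _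
      rw [Ht, Ht]
      field_simp
      ring
    · filter_upwards [hev] with z hz
      rw [G2, min_eq_right hz.le, max_eq_left hz.le, ← two_mul, sq]

end Pool.Agent.W880.IX.J2
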