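import Pool.Agent.W488.IX.Stm
import Pool.Agent.W707.IW.Alg

/-! Project IX: the quadratic form inequality with explicit delta (adapted from helper707). -/

set_option autoImplicit false

namespace Pool.Agent.W880.IX.Alg1

open Pool.Agent.W488.IW Pool.Agent.W488.IX Pool.Agent.W707.IW.Alg

theorem main : S_ALG1 := by
  intro K ϑ δ hK hϑ hδ0 hδ1 hd
  have hK0 : 0 < K := by linarith
  refine ⟨ϑ * δ / (120 * K), by positivity, ?_⟩
  intro ε hε hε1 A B ρ τ ξ ζ e2 g2 hb P Q R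
  obtain ⟨⟨hA0, hA1⟩, ⟨hB0, hB1⟩, ⟨hr0, hrK⟩, ⟨ht0, htK⟩, ⟨hx0, hxK⟩, ⟨hz0, hzK⟩, b1, b2, b3,
    b4, b5, b6⟩ := hb
  obtain ⟨e, he⟩ : ∃ e, e = K * ε := ⟨_, rfl⟩
  have he0 : 0 ≤ e := by rw [he]; positivity
  have he60 : 60 * e ≤ ϑ * δ / 2 := by
    rw [lt_div_iff₀ (by positivity)] at hε1
    rw [he]
    linarith
  rw [← he] at b1 b2 b3 b4 b5
  obtain ⟨m, hm⟩ : ∃ m, m = A * B := ⟨_, rfl⟩
  have hm0 : 0 ≤ m := by rw [hm]; positivity
  have hm1 : m ≤ 1 := by rw [hm]; exact mul_le_one₀ hA1 hB0 hB1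
  have hA2 : 0 ≤ 1 - A ^ 2 := by
    have := pow_le_one₀ (n := 2) hA0 hA1
    linarith
  have hB2 : 0 ≤ 1 - B ^ 2 := by
    have := pow_le_one₀ (n := 2) hB0 hB1
    linarith
  -- the errors
  obtain ⟨u1, hu1⟩ : ∃ u, u = (1 - A ^ 2) * (ρ / 2 + τ - ξ) := ⟨_, rfl⟩
  obtain ⟨u2, hu2⟩ : ∃ u, u = (1 - B ^ 2) * (ρ / 2 + τ - ζ) := ⟨_, rfl⟩
  obtain ⟨u3, hu3⟩ : ∃ u, u = (1 - m) * (ρ / 2 - τ) := ⟨_, rfl⟩
  obtain ⟨u4, hu4⟩ : ∃ u, u = (1 - A ^ 2) * (e2 - (ξ + 2 * τ)) := ⟨_, rfl⟩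
  obtain ⟨u5, hu5⟩ : ∃ u, u = (1 - B ^ 2) * (g2 + (ζ + 2 * τ)) := ⟨_, rfl⟩
  have a1 : |u1| ≤ e := by rw [hu1, abs_mul, abs_of_nonneg hA2]; exact b1
  have a2 : |u2| ≤ e := by rw [hu2, abs_mul, abs_of_nonneg hB2]; exact b2
  have a3 : |u3| ≤ e := by
    rw [hu3, abs_mul, abs_of_nonneg (by linarith : (0 : ℝ) ≤ 1 - m), hm]; exact b3
  have a4 : |u4| ≤ e := by rw [hu4, abs_mul, abs_of_nonneg hA2]; exact b4
  have a5 : |u5| ≤ e := by rw [hu5, abs_mul, abs_of_nonneg hB2]; exact b5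
  have hg : |m * P + (2 + 4 * δ) * Q + m * R| ≤ |P| + 6 * |Q| + |R| := by
    calc |m * P + (2 + 4 * δ) * Q + m * R|
        ≤ |m * P| + |(2 + 4 * δ) * Q| + |m * R| := abs_add_three _ _ _
      _ = m * |P| + (2 + 4 * δ) * |Q| + m * |R| := by
          rw [abs_mul, abs_mul, abs_mul, abs_of_nonneg hm0,
            abs_of_nonneg (by linarith : (0 : ℝ) ≤ 2 + 4 * δ)]
      _ ≤ |P| + 6 * |Q| + |R| := by
          have i1 : m * |P| ≤ 1 * |P| := mul_le_mul_of_nonneg_right hm1 (abs_nonneg _)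
          have i2 : m * |R| ≤ 1 * |R| := mul_le_mul_of_nonneg_right hm1 (abs_nonneg _)
          have i3 : (2 + 4 * δ) * |Q| ≤ 6 * |Q| :=
            mul_le_mul_of_nonneg_right (by linarith) (abs_nonneg _)
          linarith
  have e45 : -(2 * e * (P ^ 2 + Q ^ 2 + R ^ 2)) ≤ u4 * (P ^ 2 - Q ^ 2) + u5 * (Q ^ 2 - R ^ 2) := by
    have k4 := abs_le.1 a4
    have k5 := abs_le.1 a5
    have t1 : 0 ≤ (e + u4) * P ^ 2 := mul_nonneg (by linarith [k4.1]) (sq_nonneg P)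
    have t2 : 0 ≤ (e - u4) * Q ^ 2 := mul_nonneg (by linarith [k4.2]) (sq_nonneg Q)
    have t3 : 0 ≤ (e + u5) * Q ^ 2 := mul_nonneg (by linarith [k5.1]) (sq_nonneg Q)
    have t4 : 0 ≤ (e - u5) * R ^ 2 := mul_nonneg (by linarith [k5.2]) (sq_nonneg R)
    have t5 : 0 ≤ e * P ^ 2 := mul_nonneg he0 (sq_nonneg P)
    have t6 : 0 ≤ e * R ^ 2 := mul_nonneg he0 (sq_nonneg R)
    linarith
  have hPQR0 : 0 ≤ P ^ 2 + Q ^ 2 + R ^ 2 := by positivity
  have hAe : A ^ 2 * (ρ / 2 + τ - ξ) = ρ / 2 + τ - ξ - u1 := by rw [hu1]; ring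
  have hBe : B ^ 2 * (ρ / 2 + τ - ζ) = ρ / 2 + τ - ζ - u2 := by rw [hu2]; ring
  have hMe : m * (ρ / 2 - τ) = ρ / 2 - τ - u3 := by rw [hu3]; ring
  have hEe : A ^ 2 * (ξ + 2 * τ) + (1 - A ^ 2) * e2 = ξ + 2 * τ + u4 := by rw [hu4]; ring
  have hGe : -(B ^ 2 * (ζ + 2 * τ)) + (1 - B ^ 2) * g2 = -(ζ + 2 * τ) + u5 := by rw [hu5]; ring
  refine ⟨?_, ?_⟩
  · -- plus
    have hl : |-((u1 + u3) * P + (u1 + u2 + 2 * u3) * Q + (u2 + u3) * R)|
        ≤ e * (2 * |P| + 4 * |Q| + 2 * |R|) := by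
      rw [abs_neg]
      calc |(u1 + u3) * P + (u1 + u2 + 2 * u3) * Q + (u2 + u3) * R|
          ≤ |(u1 + u3) * P| + |(u1 + u2 + 2 * u3) * Q| + |(u2 + u3) * R| := abs_add_three _ _ _
        _ = |u1 + u3| * |P| + |u1 + u2 + 2 * u3| * |Q| + |u2 + u3| * |R| := by
            rw [abs_mul, abs_mul, abs_mul]
        _ ≤ (2 * e) * |P| + (4 * e) * |Q| + (2 * e) * |R| := by
            have j1 := abs_le.1 a1
            have j2 := abs_le.1 a2
            have j3 := abs_le.1 a3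
            have i1 : |u1 + u3| ≤ 2 * e := abs_le.2 ⟨by linarith [j1.1, j3.1], by linarith [j1.2, j3.2]⟩
            have i2 : |u1 + u2 + 2 * u3| ≤ 4 * e :=
              abs_le.2 ⟨by linarith [j1.1, j2.1, j3.1], by linarith [j1.2, j2.2, j3.2]⟩
            have i3 : |u2 + u3| ≤ 2 * e := abs_le.2 ⟨by linarith [j2.1, j3.1], by linarith [j2.2, j3.2]⟩
            exact add_le_add (add_le_add (mul_le_mul_of_nonneg_right i1 (abs_nonneg _))
              (mul_le_mul_of_nonneg_right i2 (abs_nonneg _)))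
              (mul_le_mul_of_nonneg_right i3 (abs_nonneg _))
        _ = e * (2 * |P| + 4 * |Q| + 2 * |R|) := by ring
    have hprod := prod_bound he0 hl hg
    have h3e : -(12 * e * (P ^ 2 + Q ^ 2 + R ^ 2)) ≤ 2 * u3 * (4 * Q ^ 2 + 2 * P * Q + 2 * Q * R) := by
      have h := abs_le.1 a3
      have t1 : 0 ≤ (e + u3) * ((P + Q) ^ 2 + (Q + R) ^ 2) :=
        mul_nonneg (by linarith [h.1]) (by positivity)
      have t2 : 0 ≤ (e + u3) * Q ^ 2 := mul_nonneg (by linarith [h.1]) (by positivity)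
      have t3 : 0 ≤ (e - u3) * (P ^ 2 + R ^ 2) := mul_nonneg (by linarith [h.2]) (by positivity)
      have t4 : 0 ≤ e * (P - Q) ^ 2 := by positivity
      have t5 : 0 ≤ e * (Q - R) ^ 2 := by positivity
      have t6 : 0 ≤ e * P ^ 2 := by positivity
      have t7 : 0 ≤ e * Q ^ 2 := by positivity
      have t8 : 0 ≤ e * R ^ 2 := by positivity
      linarith [t1, t2, t3, t4, t5, t6, t7, t8]
    have key := final (K := K) (m := m) (P := P) (Q := Q) (R := R) (c1 := ρ - ξ) (c2 := ρ - ζ)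
      (c3 := 2 * ρ * (1 - m) + (ξ + ζ) * (1 + m))
      (err := -((u1 + u3) * P + (u1 + u2 + 2 * u3) * Q + (u2 + u3) * R) *
        (m * P + (2 + 4 * δ) * Q + m * R) + (u4 * (P ^ 2 - Q ^ 2) + u5 * (Q ^ 2 - R ^ 2))
        + 2 * u3 * (4 * Q ^ 2 + 2 * P * Q + 2 * Q * R))
      hϑ hδ0 hδ1 hd hm0 hm1
      (abs_le.2 ⟨by linarith, by linarith⟩) (abs_le.2 ⟨by linarith, by linarith⟩)
      (by
        have : 0 ≤ 1 - m := by linarith
        positivity) he60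
      (by
        have : 0 ≤ e * (P ^ 2 + Q ^ 2 + R ^ 2) := by positivity
        linarith [hprod, e45, h3e])
    have hpos : 0 ≤ m * (ρ * (P + 2 * Q + R) ^ 2 + 2 * τ * (P - R) ^ 2)
        + (1 - m) * (ξ * (P - Q) ^ 2 + ζ * (R - Q) ^ 2
          + 2 * τ * ((P + Q) ^ 2 + (Q + R) ^ 2)) := by
      have : 0 ≤ 1 - m := by linarith
      positivity
    refine le_trans (add_nonneg key hpos) (le_of_eq ?_)
    unfold Fpl
    rw [hAe, hBe, ← hm, hEe, hGe, hMe, show 2 * m * (ρ / 2 - τ) = 2 * (m * (ρ / 2 - τ)) by ring, hMe]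
    rw [hu3]
    ring
  · -- minus
    have hl : |u1 * (P - Q) + u2 * (R - Q) + u3 * (2 * Q - R - P)|
        ≤ e * (2 * |P| + 4 * |Q| + 2 * |R|) := by
      have q1 : |P - Q| ≤ |P| + |Q| := abs_sub _ _
      have q2 : |R - Q| ≤ |R| + |Q| := abs_sub _ _
      have q3 : |2 * Q - R - P| ≤ 2 * |Q| + |R| + |P| := by
        calc |2 * Q - R - P| ≤ |2 * Q - R| + |P| := abs_sub _ _
          _ ≤ |2 * Q| + |R| + |P| := by linarith [abs_sub (2 * Q) R]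
          _ = 2 * |Q| + |R| + |P| := by rw [abs_mul, abs_two]
      calc |u1 * (P - Q) + u2 * (R - Q) + u3 * (2 * Q - R - P)|
          ≤ |u1 * (P - Q)| + |u2 * (R - Q)| + |u3 * (2 * Q - R - P)| := abs_add_three _ _ _
        _ = |u1| * |P - Q| + |u2| * |R - Q| + |u3| * |2 * Q - R - P| := by
            rw [abs_mul, abs_mul, abs_mul]
        _ ≤ e * (|P| + |Q|) + e * (|R| + |Q|) + e * (2 * |Q| + |R| + |P|) :=
            add_le_add (add_le_add (mul_le_mul a1 q1 (abs_nonneg _) he0)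
              (mul_le_mul a2 q2 (abs_nonneg _) he0)) (mul_le_mul a3 q3 (abs_nonneg _) he0)
        _ = e * (2 * |P| + 4 * |Q| + 2 * |R|) := by ring
    have hprod := prod_bound he0 hl hg
    have key := final (K := K) (m := m) (P := P) (Q := Q) (R := R) (c1 := -(2 * τ - ξ))
      (c2 := -(2 * τ - ζ))
      (c3 := 4 * τ * (1 + m) + (ξ + ζ) * (1 - m))
      (err := (u1 * (P - Q) + u2 * (R - Q) + u3 * (2 * Q - R - P)) *
        (m * P + (2 + 4 * δ) * Q + m * R) + (u4 * (P ^ 2 - Q ^ 2) + u5 * (Q ^ 2 - R ^ 2)))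
      hϑ hδ0 hδ1 hd hm0 hm1
      (abs_le.2 ⟨by linarith, by linarith⟩) (abs_le.2 ⟨by linarith, by linarith⟩)
      (by
        have : 0 ≤ 1 - m := by linarith
        positivity) he60
      (by
        have : 0 ≤ e * (P ^ 2 + Q ^ 2 + R ^ 2) := by positivity
        linarith [hprod, e45])
    have hpos : 0 ≤ m * (2 * ξ * (P + Q) ^ 2 + 2 * ζ * (Q + R) ^ 2)
        + (1 - m) * (ξ * (P + Q) ^ 2 + ζ * (Q + R) ^ 2
          + 2 * τ * ((P - Q) ^ 2 + (Q - R) ^ 2)) := by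
      have : 0 ≤ 1 - m := by linarith
      positivity
    refine le_trans (add_nonneg key hpos) (le_of_eq ?_)
    unfold Fmi
    rw [hAe, hBe, ← hm, hEe, hGe, hMe]
    ring

end Pool.Agent.W880.IX.Alg1
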